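import Pool.Agent.K1H73.ON.Stm

set_option autoImplicit false

/-! Project ON, piece ABS: the abstract estimate. -/

namespace Pool.Agent.K1H37.ON

open Finset
open Pool.Agent.K1H73.ON (ABS)

theorem t_ABS : ABS := by
  classical
  intro α _ Ω w ψ m place B fl md C z t ht hz hC hw hfl hmd hcard
  obtain ⟨P, hP⟩ : ∃ P : ℂ, P = (1 + (t : ℂ) * z) / (1 + (t : ℂ)) := ⟨_, rfl⟩
  rw [← hP]
  have hcast : (1 + (t : ℂ)) = ((1 + t : ℝ) : ℂ) := by
    push_cast
    ring
  have ht1 : (1 + (t : ℂ)) ≠ 0 := by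
    rw [hcast]
    exact_mod_cast (by linarith : (0 : ℝ) < 1 + t).ne'
  have hPe : (1 + (t : ℂ)) * P = 1 + (t : ℂ) * z := by
    rw [hP]
    field_simp
  have hzz : z * (starRingEnd ℂ) z = 1 := by
    rw [Complex.mul_conj, Complex.normSq_eq_norm_sq, hz]
    simp
  have hρ0 : 0 ≤ ‖P‖ := norm_nonneg _
  have hρ1 : ‖P‖ ≤ 1 := by
    have h1 : ‖(1 + (t : ℂ)) * P‖ ≤ 1 + t := by
      rw [hPe]
      refine (norm_add_le _ _).trans ?_
      rw [norm_mul, hz, mul_one, norm_one, Complex.norm_real, Real.norm_of_nonneg ht.le]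
    have h2 : ‖(1 + (t : ℂ))‖ = 1 + t := by
      rw [hcast, Complex.norm_real, Real.norm_of_nonneg (by linarith)]
    rw [norm_mul, h2] at h1
    nlinarith
  -- the factors
  obtain ⟨g, hg⟩ : ∃ g : ℕ → α → ℂ, g = fun i ω => if place i ω then
    (if B i ω then (starRingEnd ℂ) z * P else P) else 1 := ⟨_, rfl⟩
  obtain ⟨r, hr⟩ : ∃ r : ℕ → α → ℝ, r = fun i ω => if place i ω then ‖P‖ else 1 := ⟨_, rfl⟩
  have hgr : ∀ i ω, ‖g i ω‖ = r i ω := by
    intro i ω
    rw [hg, hr]
    dsimp only
    split_ifs with h1 h2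
    · rw [norm_mul, RCLike.norm_conj, hz, one_mul]
    · rfl
    · exact norm_one
  have hr0 : ∀ i ω, 0 ≤ r i ω := fun i ω => by
    rw [← hgr]
    exact norm_nonneg _
  -- step 1
  have key : ∀ j < m, ∀ a ∈ Ω, place j a → ¬ B j a →
      ψ a * (∏ i ∈ range j, g i a) * (g j a - 1) +
        ψ (fl j a) * (∏ i ∈ range j, g i (fl j a)) * (g j (fl j a) - 1) = 0 := by
    intro j hj a ha hpa hBa
    obtain ⟨h1, h2, h3, h4, h5, h6⟩ := hfl j hj a ha hpa
    have hprod : ∏ i ∈ range j, g i (fl j a) = ∏ i ∈ range j, g i a := by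
      refine prod_congr rfl fun i hi => ?_
      have := h5 i (mem_range.mp hi)
      rw [hg]
      simp only [this.1, this.2]
    have hg1 : g j a = P := by
      rw [hg]
      simp only [if_pos hpa, if_neg hBa]
    have hg2 : g j (fl j a) = (starRingEnd ℂ) z * P := by
      rw [hg]
      simp only [if_pos h2, if_pos (h3.mpr hBa)]
    rw [hprod, hg1, hg2, h6 hBa]
    have e : ψ a * (∏ i ∈ range j, g i a) * (P - 1) +
        (t : ℂ) * z * ψ a * (∏ i ∈ range j, g i a) * ((starRingEnd ℂ) z * P - 1) =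
        ψ a * (∏ i ∈ range j, g i a) * ((1 + (t : ℂ)) * P - (1 + (t : ℂ) * z)) +
        ψ a * (∏ i ∈ range j, g i a) * t * P * (z * (starRingEnd ℂ) z - 1) := by ring
    rw [e, hPe, hzz]
    ring
  have step1 : ∀ j ≤ m, ∑ ω ∈ Ω, ψ ω * ∏ i ∈ range j, g i ω = ∑ ω ∈ Ω, ψ ω := by
    intro j
    induction j with
    | zero =>
      intro _
      simp
    | succ j ih =>
      intro hj
      rw [← ih (by omega), ← sub_eq_zero, ← sum_sub_distrib]
      have h1 : ∀ ω ∈ Ω, ψ ω * ∏ i ∈ range (j + 1), g i ω - ψ ω * ∏ i ∈ range j, g i ω =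
          ψ ω * (∏ i ∈ range j, g i ω) * (g j ω - 1) := by
        intro ω _
        rw [prod_range_succ]
        ring
      rw [sum_congr rfl h1, ← sum_filter_of_ne (p := place j)]
      · refine sum_involution (fun a _ => fl j a) ?_ ?_ ?_ ?_
        · intro a ha
          rw [mem_filter] at ha
          by_cases hB : B j a
          · obtain ⟨h1, h2, h3, h4, -, -⟩ := hfl j (by omega) a ha.1 ha.2
            have := key j (by omega) (fl j a) h1 h2 (fun h => (h3.mp h) hB)
            rw [h4] at this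
            rw [add_comm]
            exact this
          · exact key j (by omega) a ha.1 ha.2 hB
        · intro a ha _ heq
          rw [mem_filter] at ha
          have heq' : fl j a = a := heq
          obtain ⟨-, -, h3, -, -, -⟩ := hfl j (by omega) a ha.1 ha.2
          rw [heq'] at h3
          tauto
        · intro a ha
          rw [mem_filter] at ha ⊢
          obtain ⟨h1, h2, -, -, -, -⟩ := hfl j (by omega) a ha.1 ha.2
          exact ⟨h1, h2⟩
        · intro a ha
          rw [mem_filter] at ha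
          obtain ⟨-, -, -, h4, -, -⟩ := hfl j (by omega) a ha.1 ha.2
          exact h4
      · intro ω _ hne
        by_contra hcon
        apply hne
        have : g j ω = 1 := by
          rw [hg]
          simp only [if_neg hcon]
        rw [this]
        ring
  -- step 2
  obtain ⟨W, hW⟩ : ∃ W : ℕ → ℝ, W = fun j => ∑ ω ∈ Ω, w ω * ∏ i ∈ range j, r i ω := ⟨_, rfl⟩
  have step2 : ‖∑ ω ∈ Ω, ψ ω‖ ≤ W m := by
    rw [← step1 m le_rfl, hW]
    refine (norm_sum_le _ _).trans (sum_le_sum fun ω hω => ?_)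
    rw [norm_mul, norm_prod]
    simp only [hgr]
    exact mul_le_mul_of_nonneg_right (hw ω hω).2 (prod_nonneg fun i _ => hr0 i ω)
  -- step 3
  have hC0 : 0 < C := by linarith
  have step3 : ∀ j < m, W (j + 1) ≤ (1 - (1 - ‖P‖) / (64 * C)) * W j := by
    intro j hj
    have hF0 : ∀ ω ∈ Ω, 0 ≤ w ω * ∏ i ∈ range j, r i ω := fun ω hω =>
      mul_nonneg (hw ω hω).1 (prod_nonneg fun i _ => hr0 i ω)
    obtain ⟨T, hT⟩ : ∃ T, T = ∑ ω ∈ Ω.filter (place j), w ω * ∏ i ∈ range j, r i ω := ⟨_, rfl⟩
    have h1 : W (j + 1) = W j - (1 - ‖P‖) * T := by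
      rw [hW, hT, mul_sum]
      dsimp only
      rw [sum_filter, ← sum_sub_distrib]
      refine sum_congr rfl fun ω _ => ?_
      rw [prod_range_succ]
      by_cases hp : place j ω
      · have : r j ω = ‖P‖ := by
          rw [hr]
          simp only [if_pos hp]
        rw [if_pos hp, this]
        ring
      · have : r j ω = 1 := by
          rw [hr]
          simp only [if_neg hp]
        rw [if_neg hp, this]
        ring
    have h2 : W j ≤ 64 * C * T := by
      have h3 : W j ≤ ∑ ω ∈ Ω, C * (w (md j ω) * ∏ i ∈ range j, r i (md j ω)) := by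
        rw [hW]
        refine sum_le_sum fun ω hω => ?_
        obtain ⟨-, -, h5, h6⟩ := hmd j hj ω hω
        have hprod : ∏ i ∈ range j, r i (md j ω) = ∏ i ∈ range j, r i ω := by
          refine prod_congr rfl fun i hi => ?_
          rw [hr]
          simp only [h5 i (mem_range.mp hi)]
        rw [hprod, ← mul_assoc]
        exact mul_le_mul_of_nonneg_right h6 (prod_nonneg fun i _ => hr0 i ω)
      refine h3.trans ?_
      have hmaps : ∀ ω ∈ Ω, md j ω ∈ Ω.filter (place j) := fun ω hω => by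
        obtain ⟨h5, h6, -, -⟩ := hmd j hj ω hω
        exact mem_filter.mpr ⟨h5, h6⟩
      rw [← sum_fiberwise_of_maps_to hmaps, hT, mul_sum]
      refine sum_le_sum fun y hy => ?_
      rw [mem_filter] at hy
      have h7 : ∑ x ∈ Ω with md j x = y, C * (w (md j x) * ∏ i ∈ range j, r i (md j x)) =
          ∑ x ∈ Ω with md j x = y, C * (w y * ∏ i ∈ range j, r i y) := by
        refine sum_congr rfl fun x hx => ?_
        rw [(mem_filter.mp hx).2]
      rw [h7, sum_const, nsmul_eq_mul]
      have h8 : ((Ω.filter fun x => md j x = y).card : ℝ) ≤ 64 := by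
        exact_mod_cast hcard j hj y hy.1
      have h9 : 0 ≤ C * (w y * ∏ i ∈ range j, r i y) := mul_nonneg hC0.le (hF0 y hy.1)
      calc ((Ω.filter fun x => md j x = y).card : ℝ) * (C * (w y * ∏ i ∈ range j, r i y))
          ≤ 64 * (C * (w y * ∏ i ∈ range j, r i y)) := mul_le_mul_of_nonneg_right h8 h9
        _ = 64 * C * (w y * ∏ i ∈ range j, r i y) := by ring
    rw [h1]
    have h4 : W j / (64 * C) ≤ T := by
      rw [div_le_iff₀ (by positivity)]
      linarith
    have h5 : (1 - ‖P‖) * (W j / (64 * C)) ≤ (1 - ‖P‖) * T :=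
      mul_le_mul_of_nonneg_left h4 (by linarith)
    have h6 : (1 - (1 - ‖P‖) / (64 * C)) * W j = W j - (1 - ‖P‖) * (W j / (64 * C)) := by ring
    rw [h6]
    linarith
  have hfac : 0 ≤ 1 - (1 - ‖P‖) / (64 * C) := by
    rw [sub_nonneg, div_le_one (by positivity)]
    linarith
  have step4 : ∀ j ≤ m, W j ≤ (1 - (1 - ‖P‖) / (64 * C)) ^ j * W 0 := by
    intro j
    induction j with
    | zero =>
      intro _
      simp
    | succ j ih =>
      intro hj
      refine (step3 j (by omega)).trans ?_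
      rw [pow_succ', mul_assoc]
      exact mul_le_mul_of_nonneg_left (ih (by omega)) hfac
  refine step2.trans ((step4 m le_rfl).trans (le_of_eq ?_))
  rw [hW]
  simp

end Pool.Agent.K1H37.ON
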